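import Mathlib
import Pool.Agent.Y827.HD.Her
import Pool.Agent.H37EN.Lines

/-!
# EVERY line `x + y = n`: a third of the mass of all pairs of linear polynomials

The triple `f = (a, b, c)` stands for the polynomial `f(x, y) = a x + b y + c`.

For a finite set `F` of such polynomials which are irreducible on the line `x + y = n`, no two of them equal or
opposite on the line, the Euler product `C_F(n)` of Hardy and Littlewood for the polynomials `f(x, n - x)`
converges, and it is positive if no prime divides all the products `∏ f(x, n - x)`.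

Let `k ≥ 1` and `ε > 0`. There are `K` and `C` such that for every `A` and EVERY large `n` (without exceptions, and
uniformly in the set): if `𝓕` is any set of at least `K log log n` linear polynomials which are admissible for the
line (the coefficient `a - b` of `f(x, n - x)` is at most `A` in absolute value, the constant term `b n + c` is at
most `n`, and `f(x, n - x) ≥ n / 24` for `n / 16 ≤ x ≤ n / 2`: for example `a x + c`, and `y - c`, `a x + y - c` with
`0 ≤ c ≤ n / 3`), then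

* the mean of the constants `C_F(n)` over the `k + 1` element subsets `F` of `𝓕` is at least `1 - ε`;
* the subsets `F` such that for EVERY subset `J` of `F` there are at least `n / (log n) ^ C` pairs `x, y ≥ 1` with
  `x + y = n` for which exactly the members of `J` have prime values `f(x, y)` carry at least the proportion `δ - ε`
  of the total mass of the constants, where `δ = 1/3` for `k = 1` and `δ = (5/18) ^ k` otherwise.
-/

set_option autoImplicit false

namespace Pool.Agent.Results.MP_0da313_nt.EveryN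

open Finset

/-- the value of the linear polynomial `a x + b y + c`, `f = (a, b, c)` -/
def val (f : ℤ × ℤ × ℤ) (x y : ℤ) : ℤ := f.1 * x + f.2.1 * y + f.2.2

/-- the number of the residues `x` mod `p` such that `p` divides the product of the `f(x, n - x)` -/
noncomputable def omega (n : ℕ) (F : Finset (ℤ × ℤ × ℤ)) (p : ℕ) : ℕ :=
  ((range p).filter (fun x : ℕ => (p : ℤ) ∣ ∏ f ∈ F, val f x ((n : ℤ) - x))).card

/-- the constant of Hardy and Littlewood of the polynomials `f(x, n - x)`, `f ∈ F` -/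
noncomputable def CF (n : ℕ) (F : Finset (ℤ × ℤ × ℤ)) : ℝ :=
  ∏' p : Nat.Primes, (1 - (omega n F p : ℝ) / (p : ℕ)) / (1 - 1 / ((p : ℕ) : ℝ)) ^ F.card

/-- the proportion: `1 / 3` for pairs, `(5 / 18) ^ k` for `k + 1` polynomials -/
noncomputable def share (k : ℕ) : ℝ := if k = 1 then 1 / 3 else (5 / 18) ^ k

/-- `f(x, n - x) = (a - b) x + (b n + c)` is an irreducible linear polynomial in `x` -/
def Irr (n : ℕ) (f : ℤ × ℤ × ℤ) : Prop := f.1 ≠ f.2.1 ∧ IsCoprime (f.1 - f.2.1) (f.2.1 * n + f.2.2)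

/-- no two members of `F` are equal or opposite on the line `x + y = n` -/
def Separated (n : ℕ) (F : Finset (ℤ × ℤ × ℤ)) : Prop :=
  ∀ f ∈ F, ∀ g ∈ F, f ≠ g → (∃ x : ℤ, val f x (n - x) ≠ val g x (n - x)) ∧ ∃ x : ℤ, val f x (n - x) ≠ -val g x (n - x)

/-- the conditions on a linear polynomial for the line `x + y = n` -/
def Admissible (A n : ℕ) (f : ℤ × ℤ × ℤ) : Prop :=
  Irr n f ∧ |f.1 - f.2.1| ≤ A ∧ |f.2.1 * n + f.2.2| ≤ n ∧
    ∀ x : ℝ, (n : ℝ) / 16 ≤ x → x ≤ n / 2 → (n : ℝ) / 24 ≤ f.1 * x + f.2.1 * (n - x) + f.2.2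

/-- the number of the pairs `(x, y)`, `x, y ≥ 1`, `x + y = n`, at which the members of `J` have (positive) prime
values and the other members of `F` do not -/
noncomputable def pattern (n : ℕ) (F J : Finset (ℤ × ℤ × ℤ)) : ℕ :=
  {z : ℕ × ℕ | 1 ≤ z.1 ∧ 1 ≤ z.2 ∧ z.1 + z.2 = n ∧
    ∀ f ∈ F, (0 < val f z.1 z.2 ∧ Prime (val f z.1 z.2)) ↔ f ∈ J}.ncard

open Classical in
theorem result :
    (∀ (n : ℕ) (F : Finset (ℤ × ℤ × ℤ)), (∀ f ∈ F, Irr n f) → Separated n F →
      HasProd (fun p : Nat.Primes => (1 - (omega n F p : ℝ) / (p : ℕ)) / (1 - 1 / ((p : ℕ) : ℝ)) ^ F.card)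
        (CF n F) ∧
      ((∀ p : ℕ, p.Prime → omega n F p < p) → 0 < CF n F)) ∧
    ∀ k : ℕ, 1 ≤ k → ∀ ε : ℝ, 0 < ε → ∃ (K : ℝ) (C : ℕ), 0 < K ∧ ∀ A : ℕ, ∃ n₀ : ℕ, ∀ n : ℕ, n₀ ≤ n →
      ∀ 𝓕 : Finset (ℤ × ℤ × ℤ), (∀ f ∈ 𝓕, Admissible A n f) → Separated n 𝓕 →
      K * Real.log (Real.log n) ≤ 𝓕.card →
      (1 - ε) * (𝓕.card.choose (k + 1)) ≤ ∑ F ∈ 𝓕.powersetCard (k + 1), CF n F ∧
      (share k - ε) * ∑ F ∈ 𝓕.powersetCard (k + 1), CF n F ≤
        ∑ F ∈ (𝓕.powersetCard (k + 1)).filter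
          (fun F => ∀ J ⊆ F, (n : ℝ) / Real.log n ^ C ≤ pattern n F J), CF n F := by
  refine ⟨fun n F hF hS => Pool.Agent.H37EN.CL_hasProd n F hF hS, fun k hk ε hε => ?_⟩
  obtain ⟨K, C, hK, h⟩ := Pool.Agent.H37EN.main (fun k ε hε => Pool.Agent.Y827.HD.herU k ε hε) k hk ε hε
  refine ⟨K, C, hK, fun A => ?_⟩
  obtain ⟨n₀, h⟩ := h A
  refine ⟨n₀, fun n hn 𝓕 hF hS hc => ?_⟩
  have h5 := h n hn 𝓕
    (fun f hf => ⟨(hF f hf).1.1, (hF f hf).2.1, (hF f hf).2.2.1, (hF f hf).1.2, (hF f hf).2.2.2⟩)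
    (Pool.Agent.H37EN.res_inj hS) hc
  refine ⟨h5.1, h5.2.trans (le_of_eq ?_)⟩
  apply Finset.sum_congr ?_ (fun _ _ => rfl)
  ext F
  rw [Finset.mem_filter, Finset.mem_filter]
  rfl

end Pool.Agent.Results.MP_0da313_nt.EveryN
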