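import Mathlib
import Pool.Agent.H11A.PC3
import Pool.Agent.H11P.SWc

/-! Every `n` without a local obstruction is represented, for almost all families of polynomials.

For `f_i(x, y) = P_i(x, y) + ∑_{l ≤ d} a_il x^l`, `|a_il| ≤ H`, with arbitrary given polynomials `P_i`,
and for all arrays `a` outside of a set of density at most `ε`, EVERY `n` between `(log H)^(m + δ)` and
`(log H)^A` for which no prime divides all the numbers `f_1(x, n - x) ⋯ f_m(x, n - x)` is a sum of two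
positive integers `x` and `y` such that all `|f_i(x, y)|` are primes, and the number of these
representations is asymptotic to the number predicted by Bateman and Horn, also for `x` in the windows
of length at least `(log H)^(m + δ)`. -/

set_option autoImplicit false

namespace Pool.Agent.Results.MP_0da313_nt.EveryNForAlmostAllFamilies

open Finset

/-- the value at `(x, y)` of the polynomial `P(x, y) + ∑ a_l x^l` -/
noncomputable def value {d : ℕ} (P : MvPolynomial (Fin 2) ℤ) (a : Fin (d + 1) → ℤ) (x y : ℤ) : ℤ :=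
  MvPolynomial.eval ![x, y] P + ∑ l : Fin (d + 1), a l * x ^ (l : ℕ)

/-- the arrays `(a i l)`, `i < m`, `l ≤ d`, of integers in `[-H, H]` -/
noncomputable def arrays (m d H : ℕ) : Finset (Fin m → Fin (d + 1) → ℤ) :=
  Fintype.piFinset fun _ => Fintype.piFinset fun _ => Icc (-(H : ℤ)) H

/-- no prime divides `f_1(x, n - x) ⋯ f_m(x, n - x)` for every integer `x`, where
`f_i = P_i + ∑ a_il x^l` -/
def Admissible {m d : ℕ} (P : Fin m → MvPolynomial (Fin 2) ℤ) (a : Fin m → Fin (d + 1) → ℤ) (n : ℕ) : Prop :=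
  ∀ p : ℕ, p.Prime → ∃ x : ℤ, ∀ i, ¬ (p : ℤ) ∣ value (P i) (a i) x (n - x)

/-- the number of the residue classes `x` modulo `p` with `p ∣ f_1(x, n - x) ⋯ f_m(x, n - x)` -/
noncomputable def omega {m d : ℕ} (P : Fin m → MvPolynomial (Fin 2) ℤ) (a : Fin m → Fin (d + 1) → ℤ) (n p : ℕ) : ℕ :=
  #((range p).filter fun x : ℕ => ∃ i, (p : ℤ) ∣ value (P i) (a i) x (n - x))

/-- the constant of Bateman and Horn for the polynomials `f_i(x, n - x)`, truncated at `z` -/
noncomputable def bhConst {m d : ℕ} (P : Fin m → MvPolynomial (Fin 2) ℤ) (a : Fin m → Fin (d + 1) → ℤ) (n z : ℕ) : ℝ :=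
  ∏ p ∈ (range (z + 1)).filter Nat.Prime, (1 - (omega P a n p : ℝ) / p) / (1 - 1 / (p : ℝ)) ^ m

/-- the `x` with `J < x ≤ J + L` for which all `|f_i(x, n - x)|` are primes -/
noncomputable def points {m d : ℕ} (P : Fin m → MvPolynomial (Fin 2) ℤ) (a : Fin m → Fin (d + 1) → ℤ) (n J L : ℕ) : Finset ℕ :=
  (Ioc J (J + L)).filter fun x : ℕ => ∀ i, (value (P i) (a i) x (n - x)).natAbs.Prime

open Pool.Agent.H11A Pool.Agent.H11P.Law in
lemma value_eq {d : ℕ} (P : MvPolynomial (Fin 2) ℤ) (a : Fin (d + 1) → ℤ) (n x : ℕ) :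
    value P a x ((n : ℤ) - x) = Pool.Agent.H11P.Law.value (res P n) a x := by
  unfold value Pool.Agent.H11P.Law.value
  rw [res_eval]

open Pool.Agent.H11A in
lemma value_fp {d : ℕ} (P : MvPolynomial (Fin 2) ℤ) (a : Fin (d + 1) → ℤ) (n : ℕ) (x : ℤ) :
    value P a x ((n : ℤ) - x) = (fp (res P n) a).eval x := by
  unfold value fp
  rw [Polynomial.eval_add, res_eval, Polynomial.eval_finsetSum]
  simp

open Pool.Agent.H11A in
lemma adm {m d : ℕ} (P : Fin m → MvPolynomial (Fin 2) ℤ) (a : Fin m → Fin (d + 1) → ℤ) (n : ℕ) (h : Admissible P a n) :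
    Adm (fun i => res (P i) n) a := by
  intro p hp
  obtain ⟨x, hx⟩ := h p hp
  have hp0 : (p : ℤ) ≠ 0 := by exact_mod_cast hp.ne_zero
  refine ⟨(x % p).toNat, fun i hd => hx i ?_⟩
  have h1 : (((x % p).toNat : ℕ) : ℤ) = x % p := Int.toNat_of_nonneg (Int.emod_nonneg x hp0)
  rw [← value_eq, value_fp, h1] at hd
  rw [value_fp]
  have h2 : (p : ℤ) ∣ x - x % p := Int.dvd_self_sub_emod
  have h3 : (x - x % p) ∣ (fp (res (P i) n) (a i)).eval x - (fp (res (P i) n) (a i)).eval (x % p) := Polynomial.sub_dvd_eval_sub x (x % p) _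
  have h4 := dvd_add (h2.trans h3) hd
  rwa [sub_add_cancel] at h4

lemma omega_eq {m d : ℕ} (P : Fin m → MvPolynomial (Fin 2) ℤ) (a : Fin m → Fin (d + 1) → ℤ) (n p : ℕ) :
    omega P a n p = Pool.Agent.H11P.Law.omega (fun i => Pool.Agent.H11A.res (P i) n) a p := by
  unfold omega Pool.Agent.H11P.Law.omega
  simp only [value_eq]

lemma bhConst_eq {m d : ℕ} (P : Fin m → MvPolynomial (Fin 2) ℤ) (a : Fin m → Fin (d + 1) → ℤ) (n z : ℕ) :
    bhConst P a n z = Pool.Agent.H11P.Law.bhConst (fun i => Pool.Agent.H11A.res (P i) n) z a := by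
  unfold bhConst Pool.Agent.H11P.Law.bhConst
  simp only [omega_eq]
  rfl

lemma points_eq {m d : ℕ} (P : Fin m → MvPolynomial (Fin 2) ℤ) (a : Fin m → Fin (d + 1) → ℤ) (n J L : ℕ) :
    #(points P a n J L) = Pool.Agent.H11A.pts (fun i => Pool.Agent.H11A.res (P i) n) (Ioc J (J + L)) a := by
  unfold points Pool.Agent.H11A.pts
  simp only [value_eq]

theorem result (m d e A : ℕ) (hm : 1 ≤ m) (δ θ ε : ℝ) (hδ : 0 < δ) (hδ1 : δ ≤ 1) (hθ : 0 ≤ θ) (hA : m + δ ≤ A)
    (hd : A + θ < δ * ((d + 1) / 2 : ℕ)) (hε : 0 < ε) :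
    ∃ (K : ℝ) (H₀ : ℕ), ∀ H ≥ H₀,
      ∀ P : Fin m → MvPolynomial (Fin 2) ℤ, (∀ i, (P i).totalDegree ≤ e) →
      (∀ i j, |(((P i).coeff j : ℤ) : ℝ)| ≤ H * Real.log H ^ A) →
      ∃ Bad ⊆ arrays m d H, (#Bad : ℝ) ≤ ε * #(arrays m d H) ∧
      ∀ a ∈ arrays m d H, a ∉ Bad → ∀ n : ℕ, Real.log H ^ (m + δ) + 1 ≤ n → (n : ℝ) ≤ Real.log H ^ A → Admissible P a n →
        (∃ x y : ℕ, 0 < x ∧ 0 < y ∧ x + y = n ∧ ∀ i, (value (P i) (a i) x y).natAbs.Prime) ∧
        ∀ z : ℕ, K * Real.log (Real.log H) ≤ z → 8 * (z : ℝ) ≤ Real.log H → 0 < bhConst P a n z ∧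
          ∀ J L : ℕ, Real.log H ^ (m + δ) ≤ L → J + L < n → ((J + L : ℕ) : ℝ) ≤ L * Real.log H ^ θ →
            |(#(points P a n J L) : ℝ) - bhConst P a n z * L / Real.log H ^ m| ≤
              ε * (bhConst P a n z * L / Real.log H ^ m) := by
  have hd3 : 3 ≤ d := by
    have h1 : (1 : ℝ) ≤ m := by exact_mod_cast hm
    have h2 : (1 : ℝ) < A := by linarith
    have h3 : 2 ≤ A := by exact_mod_cast h2
    have h4 : (2 : ℝ) ≤ A := by exact_mod_cast h3
    have h5 : δ * ((d + 1) / 2 : ℕ) ≤ 1 * ((d + 1) / 2 : ℕ) := mul_le_mul_of_nonneg_right hδ1 (Nat.cast_nonneg _)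
    have h6 : (2 : ℝ) < ((d + 1) / 2 : ℕ) := by linarith
    have h7 : 2 < (d + 1) / 2 := by exact_mod_cast h6
    omega
  obtain ⟨K, hK1, h0⟩ := Pool.Agent.H11A.lines Pool.Agent.H11P.swU m d e A hm hd3 δ θ (min ε (1 / 2)) hδ hδ1 hθ hd
    (lt_min hε (by norm_num)) ((min_le_right _ _).trans (by norm_num))
  obtain ⟨H₀, h1⟩ := Filter.eventually_atTop.1 h0
  obtain ⟨H₁, h2⟩ := Filter.eventually_atTop.1 ((Pool.Agent.H11P.ev_log 1).and (Pool.Agent.H11A.ev_ll 1 (16 * K) 1 one_pos))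
  obtain ⟨H₂, h2'⟩ := Filter.eventually_atTop.1 (Pool.Agent.H11P.ev_log 16)
  refine ⟨K, max H₀ (max H₁ H₂), fun H hH P hPe hPc => ?_⟩
  obtain ⟨Bad, hB1, hB2, hB3⟩ := h1 H ((le_max_left _ _).trans hH) P hPe hPc
  obtain ⟨hℓ, hKℓ⟩ := h2 H (((le_max_left _ _).trans (le_max_right _ _)).trans hH)
  have hℓ16 := h2' H (((le_max_right _ _).trans (le_max_right _ _)).trans hH)
  rw [pow_one, Real.rpow_one] at hKℓ
  have hN0 : (0 : ℝ) ≤ #(arrays m d H) := Nat.cast_nonneg _
  refine ⟨Bad, hB1, hB2.trans (mul_le_mul_of_nonneg_right (min_le_left _ _) hN0), fun a ha hab n hn1 hn2 hadm => ?_⟩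
  have hadm' := adm P a n hadm
  have hmain : ∀ z : ℕ, K * Real.log (Real.log H) ≤ z → 8 * (z : ℝ) ≤ Real.log H → 0 < bhConst P a n z ∧
      ∀ J L : ℕ, Real.log H ^ (m + δ) ≤ L → J + L < n → ((J + L : ℕ) : ℝ) ≤ L * Real.log H ^ θ →
        |(#(points P a n J L) : ℝ) - bhConst P a n z * L / Real.log H ^ m| ≤
          min ε (1 / 2) * (bhConst P a n z * L / Real.log H ^ m) := by
    intro z hz hz8
    have hb : 0 < bhConst P a n z := by
      rw [bhConst_eq]
      exact Pool.Agent.H11A.bh_pos _ e (fun i => (Pool.Agent.H11A.res_deg (P i) n).trans (hPe i)) (by omega) a hadm' z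
    refine ⟨hb, fun J L hL hJL hθL => ?_⟩
    have h3 := hB3 a ha hab n hn2 hadm' z hz (by
      unfold Pool.Agent.H11A.Yh
      apply Nat.le_floor
      linarith) J L hL (by
        refine le_trans ?_ hn2
        exact_mod_cast hJL.le) hθL
    rw [← points_eq, ← bhConst_eq] at h3
    have hℓk : 0 < Real.log H ^ m := by positivity
    have h5 : (#(points P a n J L) : ℝ) - bhConst P a n z * L / Real.log H ^ m =
        (Real.log H ^ m * #(points P a n J L) - L * bhConst P a n z) / Real.log H ^ m := by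
      field_simp
    rw [h5, abs_div, abs_of_pos hℓk, div_le_iff₀ hℓk]
    refine h3.trans (le_of_eq ?_)
    field_simp
  refine ⟨?_, fun z hz hz8 => ?_⟩
  · obtain ⟨hb, hw⟩ := hmain ⌈K * Real.log (Real.log H)⌉₊ (Nat.le_ceil _) (by
      have h3 : (0 : ℝ) ≤ K * Real.log (Real.log H) := mul_nonneg (by linarith) (Real.log_nonneg hℓ)
      have h4 := Nat.ceil_lt_add_one h3
      linarith)
    have hn0 : 1 ≤ n := by
      have h3 : 0 ≤ Real.log H ^ (m + δ) := by positivity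
      have h4 : (1 : ℝ) ≤ n := by linarith
      exact_mod_cast h4
    have h3 := hw 0 (n - 1) (by rw [Nat.cast_sub hn0]; push_cast; linarith) (by omega) (by
      rw [zero_add]
      exact le_mul_of_one_le_right (Nat.cast_nonneg _) (Real.one_le_rpow hℓ hθ))
    have h4 : 0 < (((n - 1 : ℕ) : ℝ)) := by
      have h5 : (1 : ℝ) ≤ Real.log H ^ (m + δ) := Real.one_le_rpow hℓ (by positivity)
      rw [Nat.cast_sub hn0]
      push_cast
      linarith
    obtain ⟨X, hX⟩ : ∃ X, X = bhConst P a n ⌈K * Real.log (Real.log H)⌉₊ * ((n - 1 : ℕ) : ℝ) / Real.log H ^ m := ⟨_, rfl⟩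
    have hX0 : 0 < X := by rw [hX]; positivity
    rw [← hX] at h3
    have h6 : min ε (1 / 2) * X ≤ 1 / 2 * X := mul_le_mul_of_nonneg_right (min_le_right _ _) hX0.le
    have h7 := (abs_le.1 h3).1
    have h8 : (0 : ℝ) < #(points P a n 0 (n - 1)) := by linarith
    have h9 : 0 < #(points P a n 0 (n - 1)) := by exact_mod_cast h8
    obtain ⟨x, hx⟩ := card_pos.1 h9
    unfold points at hx
    rw [mem_filter, mem_Ioc] at hx
    refine ⟨x, n - x, by omega, by omega, by omega, fun i => ?_⟩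
    have h10 := hx.2 i
    have h11 : ((n - x : ℕ) : ℤ) = (n : ℤ) - x := by
      rw [Nat.cast_sub (by omega)]
    rw [h11]
    exact h10
  · obtain ⟨hb, hw⟩ := hmain z hz hz8
    refine ⟨hb, fun J L hL hJL hθL => (hw J L hL hJL hθL).trans ?_⟩
    apply mul_le_mul_of_nonneg_right (min_le_left _ _)
    have : 0 < Real.log H ^ m := by positivity
    positivity

end Pool.Agent.Results.MP_0da313_nt.EveryNForAlmostAllFamilies
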