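import Pool.Agent.H37Z.HD.Main

set_option autoImplicit false

/-!
# Prime values of `x (b y + h(x)) + c` on almost every line `x + y = n`, `h` of arbitrary degree at least 2

`f(x, y) = x (b y + h(x)) + c` with `h` an integer polynomial of degree `e ≥ 2`, `b ≥ 1`, `c ≠ 0` (so `f` has total
degree `e + 1`, arbitrarily large). For almost all `n` for which `f(x, n - x)` has no fixed prime divisor, `n = x + y`
with `x, y ≥ 1`, `x ≤ T` and `f(x, y)` prime, and the number of the `x ≤ T` with `f(x, n - x)` prime is the predicted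
one (with the Euler product over the primes `p ≤ Z`), `Z` any number between a constant and a power of the logarithm,
and `T` any number with `n ≪ T^e (log n)^C₂`, `T^e ≪ n` (if the leading coefficient of `h` is negative: `T^e ≤ η n`).

Proof. On the line `x + y = n` we have `f(x, n - x) = x (G(x) + b n) + c` with `G = h - b X`; the mean value theorem of
the starting library `Agent/N728/QG` for the polynomials `t (G(t) + b) + c` (`b` the variable of the mean value), made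
uniform in the sign of the leading coefficient and applied to the multiples of `b` (a positive proportion of all
integers).
-/

namespace Pool.Agent.Results.MP_0da313_nt.HigherDegreeLines

open Finset

/-- The polynomial `f(x, y) = x (b y + h(x)) + c`. -/
def f (h : Polynomial ℤ) (b : ℕ) (c x y : ℤ) : ℤ := x * (b * y + h.eval x) + c

/-- No prime divides all the values `f(x, n - x)`. -/
def NoFixed (h : Polynomial ℤ) (b : ℕ) (c : ℤ) (n : ℕ) : Prop :=
  ∀ p : ℕ, p.Prime → ∃ x : ℤ, ¬ (p : ℤ) ∣ f h b c x (n - x)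

/-- `n = x + y` with integers `x, y ≥ 1`, `x ≤ T`, and `f(x, y)` a (positive) prime. -/
def Represented (h : Polynomial ℤ) (b : ℕ) (c : ℤ) (T n : ℕ) : Prop :=
  ∃ x y : ℕ, 1 ≤ x ∧ 1 ≤ y ∧ x + y = n ∧ x ≤ T ∧ (f h b c x y).toNat.Prime

/-- The number of the residue classes `x` modulo `p` with `p ∣ f(x, n - x)`. -/
def omega (h : Polynomial ℤ) (b : ℕ) (c : ℤ) (n p : ℕ) : ℕ :=
  ((range p).filter (fun x : ℕ => (p : ℤ) ∣ f h b c x (n - x))).card

/-- The product of `(1 - omega(p) / p) / (1 - 1 / p)` over the primes `p ≤ Z`. -/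
noncomputable def eulerProd (h : Polynomial ℤ) (b : ℕ) (c : ℤ) (n Z : ℕ) : ℝ :=
  ∏ p ∈ (Ioc 0 Z).filter Nat.Prime, (1 - (omega h b c n p : ℝ) / p) / (1 - 1 / (p : ℝ))

/-- The number of `1 ≤ x ≤ T` with `f(x, n - x)` a (positive) prime. -/
def rep (h : Polynomial ℤ) (b : ℕ) (c : ℤ) (n T : ℕ) : ℕ :=
  ((Icc 1 T).filter (fun x : ℕ => (f h b c x (n - x)).toNat.Prime)).card

/-- The sum of `1 / log f(x, n - x)` over the `1 ≤ x ≤ T` with `f(x, n - x) ≥ 2`. -/
noncomputable def logSum (h : Polynomial ℤ) (b : ℕ) (c : ℤ) (n T : ℕ) : ℝ :=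
  ∑ x ∈ (Icc 1 T).filter (fun x : ℕ => 2 ≤ f h b c x (n - x)), 1 / Real.log ((f h b c x (n - x) : ℤ) : ℝ)

/-- The conclusion for one `n`. -/
def Good (h : Polynomial ℤ) (b : ℕ) (c : ℤ) (κ δ : ℝ) (T Z n : ℕ) : Prop :=
  Represented h b c T n ∧ κ ≤ eulerProd h b c n Z ∧
    |(rep h b c n T : ℝ) - eulerProd h b c n Z * logSum h b c n T| ≤ δ * (T / Real.log T)

open Classical in
/-- The number of the `n ≤ N` without fixed prime divisor for which the conclusion fails. -/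
noncomputable def exceptions (h : Polynomial ℤ) (b : ℕ) (c : ℤ) (κ δ : ℝ) (N T Z : ℕ) : ℕ :=
  ((Icc 1 N).filter (fun n : ℕ => NoFixed h b c n ∧ ¬ Good h b c κ δ T Z n)).card

/-- the auxiliary polynomial `G = h - b X` -/
noncomputable def G (h : Polynomial ℤ) (b : ℕ) : Polynomial ℤ := h - Polynomial.C (b : ℤ) * Polynomial.X

lemma fp_eq (h : Polynomial ℤ) (b : ℕ) (c : ℤ) (n x : ℕ) :
    Pool.Agent.N728.QG.fp (G h b) ((b * n : ℕ) : ℤ) c x = f h b c x (n - x) := by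
  unfold Pool.Agent.N728.QG.fp f G
  simp only [Polynomial.eval_sub, Polynomial.eval_mul, Polynomial.eval_C, Polynomial.eval_X]
  push_cast
  ring

lemma deg_lt (h : Polynomial ℤ) (b : ℕ) (hd : 2 ≤ h.natDegree) :
    (Polynomial.C (b : ℤ) * Polynomial.X).natDegree < h.natDegree := by
  have h1 := Polynomial.natDegree_C_mul_le (b : ℤ) (Polynomial.X : Polynomial ℤ)
  have h2 : (Polynomial.X : Polynomial ℤ).natDegree ≤ 1 := Polynomial.natDegree_X_le
  omega

lemma natDegree_G (h : Polynomial ℤ) (b : ℕ) (hd : 2 ≤ h.natDegree) : (G h b).natDegree = h.natDegree :=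
  Polynomial.natDegree_sub_eq_left_of_natDegree_lt (deg_lt h b hd)

lemma leadingCoeff_G (h : Polynomial ℤ) (b : ℕ) (hd : 2 ≤ h.natDegree) :
    (G h b).leadingCoeff = h.leadingCoeff :=
  Polynomial.leadingCoeff_sub_of_degree_lt (Polynomial.degree_lt_degree (deg_lt h b hd))

lemma f_mod (h : Polynomial ℤ) (b : ℕ) (c : ℤ) (n p : ℕ) (x y : ℤ) (hxy : (p : ℤ) ∣ x - y) :
    (p : ℤ) ∣ f h b c x (n - x) - f h b c y (n - y) := by
  unfold f
  have h1 : (p : ℤ) ∣ h.eval x - h.eval y := hxy.trans (Polynomial.sub_dvd_eval_sub x y h)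
  have e : x * (b * (n - x) + h.eval x) + c - (y * (b * (n - y) + h.eval y) + c) =
      (x - y) * (b * (n - x) + h.eval x) + y * (-(b : ℤ) * (x - y) + (h.eval x - h.eval y)) := by ring
  rw [e]
  exact dvd_add (hxy.mul_right _) ((dvd_add (hxy.mul_left _) h1).mul_left _)

lemma nf_of (h : Polynomial ℤ) (b : ℕ) (c : ℤ) (n : ℕ) (hn : NoFixed h b c n) :
    Pool.Agent.H37Z.HD.NF (G h b) ((b * n : ℕ) : ℤ) c := by
  intro p hp
  obtain ⟨x, hx⟩ := hn p hp
  have hp0 : (p : ℤ) ≠ 0 := by exact_mod_cast hp.ne_zero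
  obtain ⟨r, hr⟩ : ∃ r : ℕ, (r : ℤ) = x % p := ⟨(x % p).toNat, Int.toNat_of_nonneg (Int.emod_nonneg _ hp0)⟩
  have hrp : r < p := by
    have : (r : ℤ) < p := by
      rw [hr]; exact Int.emod_lt_of_pos _ (by exact_mod_cast hp.pos)
    exact_mod_cast this
  unfold Pool.Agent.N728.QG.om
  have hlt : (range p).filter (fun t : ℕ => (p : ℤ) ∣
      Pool.Agent.N728.QG.fp (G h b) ((b * n : ℕ) : ℤ) c t) ⊂ range p := by
    refine Finset.ssubset_iff_subset_ne.2 ⟨filter_subset _ _, fun heq => ?_⟩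
    have h1 : r ∈ (range p).filter (fun t : ℕ => (p : ℤ) ∣
      Pool.Agent.N728.QG.fp (G h b) ((b * n : ℕ) : ℤ) c t) := by
      rw [heq, mem_range]; exact hrp
    have h2 := (mem_filter.1 h1).2
    rw [fp_eq] at h2
    apply hx
    have h3 : (p : ℤ) ∣ x - r := by
      rw [hr]; exact Int.dvd_self_sub_emod
    have h4 := f_mod h b c n p x r h3
    have h5 := dvd_add h4 h2
    simpa using h5
  have := card_lt_card hlt
  rwa [card_range] at this

lemma omega_eq (h : Polynomial ℤ) (b : ℕ) (c : ℤ) (n p : ℕ) :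
    Pool.Agent.N728.QG.om (G h b) ((b * n : ℕ) : ℤ) c p = omega h b c n p := by
  unfold Pool.Agent.N728.QG.om omega
  simp only [fp_eq]

lemma eulerProd_eq (h : Polynomial ℤ) (b : ℕ) (c : ℤ) (n Z : ℕ) :
    Pool.Agent.N728.QG.Sg (G h b) ((b * n : ℕ) : ℤ) c Z = eulerProd h b c n Z := by
  unfold Pool.Agent.N728.QG.Sg eulerProd
  simp only [omega_eq]

lemma rep_eq (h : Polynomial ℤ) (b : ℕ) (c : ℤ) (n T : ℕ) :
    Pool.Agent.N728.QG.cnt (G h b) ((b * n : ℕ) : ℤ) c T = rep h b c n T := by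
  unfold Pool.Agent.N728.QG.cnt rep
  simp only [fp_eq]

/-- **Theorem.** `f(x, y) = x (b y + h(x)) + c`, `h` of degree `e ≥ 2`, `b ≥ 1`, `c ≠ 0`. -/
theorem result (h : Polynomial ℤ) (b : ℕ) (c : ℤ) (hd : 2 ≤ h.natDegree) (hb : 1 ≤ b) (hc : c ≠ 0) :
    ∀ ε : ℝ, 0 < ε → ∃ κ η : ℝ, 0 < κ ∧ 0 < η ∧ ∀ (δ : ℝ) (K C₂ : ℕ), 0 < δ → ∃ z₀ : ℕ, ∀ A : ℕ, ∃ N₀ : ℕ,
      ∀ N : ℕ, N₀ ≤ N → ∀ T Z : ℕ, (N : ℝ) ≤ (T : ℝ) ^ h.natDegree * Real.log N ^ C₂ → T ^ h.natDegree ≤ K * N →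
      (0 < h.leadingCoeff ∨ (T : ℝ) ^ h.natDegree ≤ η * N) → z₀ ≤ Z → (Z : ℝ) ≤ Real.log N ^ A →
      (exceptions h b c κ δ N T Z : ℝ) ≤ ε * N := by
  classical
  intro ε hε
  obtain ⟨κ, η, hκ, hη, hm⟩ := Pool.Agent.H37Z.HD.main (G h b) c b (by rw [natDegree_G h b hd]; exact hd) hb hc ε hε
  refine ⟨κ, η, hκ, hη, fun δ K C₂ hδ => ?_⟩
  obtain ⟨z₀, hz⟩ := hm δ K C₂ hδ
  refine ⟨z₀, fun A => ?_⟩
  obtain ⟨N₀, hN₀⟩ := hz A
  refine ⟨N₀, fun N hN T Z hT1 hT2 hT3 hZ1 hZ2 => ?_⟩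
  obtain ⟨X, hX, hgood⟩ := hN₀ N hN T Z (by rw [natDegree_G h b hd]; exact hT1)
    (by rw [natDegree_G h b hd]; exact hT2)
    (by rw [leadingCoeff_G h b hd, natDegree_G h b hd]; exact hT3) hZ1 hZ2
  refine le_trans ?_ hX
  unfold exceptions
  have hsub : (Icc 1 N).filter (fun n : ℕ => NoFixed h b c n ∧ ¬ Good h b c κ δ T Z n) ⊆ X := by
    intro n hn
    rw [mem_filter] at hn
    obtain ⟨hn1, hn2, hn3⟩ := hn
    by_contra hnX
    apply hn3
    obtain ⟨h1, h2, t, ht1, htT, htn, htp⟩ := hgood n hn1 hnX (nf_of h b c n hn2)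
    rw [eulerProd_eq] at h1 h2
    rw [rep_eq] at h2
    refine ⟨?_, h1, ?_⟩
    · refine ⟨t, n - t, ht1, by omega, by omega, htT, ?_⟩
      rw [fp_eq] at htp
      rw [Nat.cast_sub htn.le]
      exact htp
    · unfold logSum
      simp only [fp_eq] at h2
      exact h2
  exact_mod_cast card_le_card hsub

end Pool.Agent.Results.MP_0da313_nt.HigherDegreeLines
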