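import Pool.Agent.H85G.F
import Pool.Agent.H85G.T
import Pool.Agent.N625.PT.T

/-!
# Prime values of pairs of linear polynomials along `x + y = n`, with almost prime companions of arbitrary degrees, for random
# integers `n` whose digits have long range interactions

`f₁ = x`, `f₂ = δ y - γ x + β`, and arbitrary polynomials `F_1 (x), …, F_g (x)` without small prime factors. The digits of `v`
form a Gibbs measure: the interactions have unbounded range, involve any number of digits, and are neither small nor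
translation invariant; the only condition is that they are summable at each position. The a priori measure is an arbitrary
Markov random field with flexible digits on an arbitrary graph of positions of bounded degree. With a high probability, for
ALL `n` close to `c + κ v` and ALL `δ`, `γ`, `β` of logarithmic size the number of the `x + y = n` is the expected one.

Method: the exponential sums over these measures are exponentially small in the number of the positions at which the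
frequency has a digit which is not extremal (`Pool.Agent.H85G`); so all the multiples of the random integers have a thin
large spectrum (`good_tcls`), and the prime `f₂` can be replaced by its sieve model (starting files,
`Pool.Agent.N625.PT.t_gen`, after `Pool.Agent.Y885`); the main term is from the starting files (`Pool.Agent.N625.PT.det_PF`).
-/

set_option autoImplicit false

namespace Pool.Agent.Results.MP_0da313_nt.LongRangeGibbsLines

open Finset Polynomial

/-- The digit of `v` at the position `i` in base `b` (the position `0` is the least significant one). -/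
def dig (b v i : ℕ) : ℕ := v / b ^ i % b

/-- The integer which has the digits of `v` at the positions in `S` and the digits of `w` at the other positions below `k`. -/
def splice (b k : ℕ) (S : Finset ℕ) (v w : ℕ) : ℕ := ∑ i ∈ range k, (if i ∈ S then dig b v i else dig b w i) * b ^ i

/-- `v` and `w` have the same digits outside the set `S` of positions. -/
def Off (b : ℕ) (S : Finset ℕ) (v w : ℕ) : Prop := ∀ i, i ∉ S → dig b v i = dig b w i

open Classical in
/-- The closed neighbourhood of the position `i` in the graph `A` on the positions `0, …, k - 1`. -/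
noncomputable def nb (k : ℕ) (A : ℕ → ℕ → Prop) (i : ℕ) : Finset ℕ := (range k).filter fun j => j = i ∨ A i j

open Classical in
/-- The total weight of the integers below `b ^ k` which have the same digits as `v` outside `S`. -/
noncomputable def mass (b k : ℕ) (q : ℕ → ℝ) (S : Finset ℕ) (v : ℕ) : ℝ :=
  ∑ w ∈ (range (b ^ k)).filter (fun w => Off b S w v), q w

/-- The a priori measure: the digits of a random integer `v < b ^ k` (with the probabilities `q v`) form a Markov random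
field on a graph `A` of positions with degrees at most `Δ` (for every set `S` of positions and all `v`, `w` which have the
same digits at the positions outside `S` adjacent to `S`, the product `q v * q w` does not change if `v` and `w` exchange
their digits in `S`), and each digit is flexible: for every `v` with `q v ≠ 0` and every position `i`, there are `x` and `y`
which have the same digits as `v` outside the closed neighbourhood of `i`, which differ from each other exactly at the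
position `i`, and whose conditional probabilities, given the digits outside this neighbourhood, are at least `η`. (For
instance, with `Δ = 0`: independent digits, each of which has at least two values with probabilities at least `η`.) -/
structure RandomField (b k Δ : ℕ) (η : ℝ) (A : ℕ → ℕ → Prop) (q : ℕ → ℝ) : Prop where
  symm : ∀ i j, A i j → A j i
  degree : ∀ i < k, (nb k A i).card ≤ Δ + 1
  nonneg : ∀ v, 0 ≤ q v
  sum : ∑ v ∈ range (b ^ k), q v = 1
  markov : ∀ S : Finset ℕ, ∀ v < b ^ k, ∀ w < b ^ k, (∀ i ∈ S, ∀ j < k, j ∉ S → A i j → dig b v j = dig b w j) →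
    q v * q w = q (splice b k S v w) * q (splice b k S w v)
  flexible : ∀ v < b ^ k, q v ≠ 0 → ∀ i < k, ∃ x < b ^ k, ∃ y < b ^ k, Off b (nb k A i) x v ∧ Off b {i} y x ∧
    dig b y i ≠ dig b x i ∧ η * mass b k q (nb k A i) v ≤ q x ∧ η * mass b k q (nb k A i) v ≤ q y

/-- The interactions `φ X`, for all sets `X ⊆ {0, …, k - 1}` of positions: `φ X v` depends only on the digits of `v` at the
positions in `X`, its absolute value is at most `N X`, and for each position `i` the sum of `exp (r * |X|) * N X` over the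
sets `X` which contain `i` is at most `M`. (For instance, pair interactions `φ {i, j}` with `∑ j, N {i, j} ≤ exp (- 2 r) M`
for all `i`, at arbitrary distances.) -/
structure Interaction (b k : ℕ) (M r : ℝ) (φ : Finset ℕ → ℕ → ℝ) (N : Finset ℕ → ℝ) : Prop where
  depends : ∀ X ⊆ range k, ∀ v < b ^ k, ∀ w < b ^ k, (∀ i ∈ X, dig b v i = dig b w i) → φ X v = φ X w
  bound : ∀ X ⊆ range k, ∀ v < b ^ k, |φ X v| ≤ N X
  summable : ∀ i < k, ∑ X ∈ (range k).powerset.filter (fun X => i ∈ X), Real.exp (r * X.card) * N X ≤ M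

/-- The Gibbs weight: the a priori weight times the exponential of the sum of all the interactions. -/
noncomputable def weight (k : ℕ) (q : ℕ → ℝ) (φ : Finset ℕ → ℕ → ℝ) (v : ℕ) : ℝ :=
  q v * Real.exp (∑ X ∈ (range k).powerset, φ X v)

/-- The Gibbs measure: the probability of `v < b ^ k`. -/
noncomputable def gibbs (b k : ℕ) (q : ℕ → ℝ) (φ : Finset ℕ → ℕ → ℝ) (v : ℕ) : ℝ :=
  weight k q φ v / ∑ w ∈ range (b ^ k), weight k q φ w

lemma field_conv {b k Δ : ℕ} {η : ℝ} {A : ℕ → ℕ → Prop} {q : ℕ → ℝ} (h : RandomField b k Δ η A q) :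
    Pool.Agent.N213.GF.Field b k Δ η A q :=
  ⟨h.symm, h.degree, h.nonneg, h.sum, h.markov, h.flexible⟩

lemma inter_conv {b k : ℕ} {M r : ℝ} {φ : Finset ℕ → ℕ → ℝ} {N : Finset ℕ → ℝ} (hb : 2 ≤ b) (h : Interaction b k M r φ N) :
    Pool.Agent.H85G.Inter b k (max M 0) r (fun X v => if X ⊆ range k then φ X v else 0)
      (fun X => if X ⊆ range k then N X else 0) := by
  have h0 : ∀ X ⊆ range k, 0 ≤ N X := by
    intro X hX
    exact (abs_nonneg _).trans (h.bound X hX 0 (by positivity))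
  refine ⟨?_, ?_, ?_, ?_⟩
  · intro X v hv w hw hvw
    split_ifs with hX
    · exact h.depends X hX v hv w hw hvw
    · rfl
  · intro X v hv
    split_ifs with hX
    · exact h.bound X hX v hv
    · rw [abs_zero]
  · intro X
    split_ifs with hX
    · exact h0 X hX
    · exact le_rfl
  · intro i hi
    refine le_trans (le_of_eq ?_) ((h.summable i hi).trans (le_max_left _ _))
    apply sum_congr rfl
    intro X hX
    rw [mem_filter, mem_powerset] at hX
    beta_reduce
    rw [if_pos hX.1]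

lemma energy_conv {k : ℕ} (φ : Finset ℕ → ℕ → ℝ) (v : ℕ) :
    Pool.Agent.H85G.energy k (fun X v => if X ⊆ range k then φ X v else 0) v = ∑ X ∈ (range k).powerset, φ X v := by
  unfold Pool.Agent.H85G.energy
  apply sum_congr rfl
  intro X hX
  beta_reduce
  rw [if_pos (mem_powerset.1 hX)]

lemma gt_conv {b k Δ : ℕ} (hb : 2 ≤ b) {η M r : ℝ} {A : ℕ → ℕ → Prop} {q : ℕ → ℝ} {φ : Finset ℕ → ℕ → ℝ} {N : Finset ℕ → ℝ}
    (hq : RandomField b k Δ η A q) (hφ : Interaction b k M r φ N) :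
    Pool.Agent.H85G.GT b Δ η (max M 0) r k (gibbs b k q φ) := by
  refine ⟨A, q, _, _, field_conv hq, inter_conv hb hφ, ?_⟩
  funext v
  unfold gibbs weight Pool.Agent.H85G.gibbs
  simp only [energy_conv]

variable {g : ℕ}

/-- The value of the polynomial `f₂ = δ y - γ x + β` at the point `(x, n - x)` of the line `x + y = n`. -/
def val (δ γ : ℕ) (β : ℤ) (n : ℕ) (x : ℤ) : ℤ := δ * (n - x) - γ * x + β

open Classical in
/-- The number of the `n = x + y` with `x, y ≥ 1` such that `x` and `f₂(x, y)` are prime and no prime `ℓ ≤ z` divides one of the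
`F_i(x)`, counted with the weight `log x log f₂(x, y)`. -/
noncomputable def reps (F : Fin g → ℤ[X]) (δ γ : ℕ) (β : ℤ) (n z : ℕ) : ℝ :=
  ∑ x ∈ (Icc 1 (n - 1)).filter (fun x : ℕ => x.Prime ∧ (val δ γ β n x).toNat.Prime ∧
    ∀ ℓ : ℕ, ℓ.Prime → ℓ ≤ z → ∀ i, ¬ (ℓ : ℤ) ∣ (F i).eval (x : ℤ)), Real.log x * Real.log ((val δ γ β n x : ℤ) : ℝ)

/-- The number of the residues `r` modulo `p` with `r F_1(r) ... F_g(r) f₂(r, n - r) ≡ 0`. -/
def omega (F : Fin g → ℤ[X]) (δ γ : ℕ) (β : ℤ) (n p : ℕ) : ℕ :=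
  ((range p).filter (fun r : ℕ => (p : ℤ) ∣ (r * ∏ i, (F i).eval (r : ℤ)) * val δ γ β n r)).card

/-- The expected value: the number `⌊(δ n + β - 1) / (δ + γ)⌋` of the `x ≥ 1` with `f₂(x, n - x) > 0`, times the product of
`(1 - ω(p) / p) (1 - 1 / p) ^ (-2)` over the primes `p ≤ z`. -/
noncomputable def expected (F : Fin g → ℤ[X]) (δ γ : ℕ) (β : ℤ) (n z : ℕ) : ℝ :=
  ((((δ * n + β).toNat - 1) / (δ + γ) : ℕ) : ℝ) *
    ∏ p ∈ (Icc 1 z).filter Nat.Prime, (1 - (omega F δ γ β n p : ℝ) / p) / (1 - 1 / (p : ℝ)) ^ 2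

/-- `x F_1(x) ... F_g(x) f₂(x, n - x)` has no fixed prime divisor. -/
def NoFixedDivisor (F : Fin g → ℤ[X]) (δ γ : ℕ) (β : ℤ) (n : ℕ) : Prop :=
  ∀ p : ℕ, p.Prime → ∃ x : ℤ, ¬ (p : ℤ) ∣ (x * ∏ i, (F i).eval x) * val δ γ β n x

/-! ### the forms of the starting files -/

open Pool.Agent.H373R2.T7 Pool.Agent.H373R2.T7.TB Pool.Agent.H373R2.T7.PB

lemma prod_eF (F : Fin g → ℤ[X]) (n : ℤ) : (∏ i, (PArg.eF F i).eval n) = n * ∏ i, (F i).eval n := by
  rw [Fin.prod_univ_succ]
  have h1 : (PArg.eF F 0) = X := by unfold PArg.eF; simp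
  have h2 : ∀ i : Fin g, (PArg.eF F (Fin.succ i)) = F i := by intro i; unfold PArg.eF; simp
  simp only [h1, h2, eval_X]

lemma val_eq (δ γ : ℕ) (β : ℤ) (n : ℕ) (hN : 0 < δ * n + β) (x : ℤ) :
    val δ γ β n x = (((δ * n + β).toNat : ℕ) : ℤ) - ((δ + γ : ℕ) : ℤ) * x := by
  unfold val
  rw [Int.toNat_of_nonneg hN.le]
  push_cast
  ring

open Classical in
lemma reps_eq (F : Fin g → ℤ[X]) (δ γ : ℕ) (β : ℤ) (n z : ℕ) (hδ : 1 ≤ δ) (hN : 0 < δ * n + β) (hβ : β ≤ γ * n) :
    reps F δ γ β n z = WP F (C ((δ + γ : ℕ) : ℤ) * X) (δ * n + β).toNat z (δ * n + β).toNat := by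
  obtain ⟨N, hNN⟩ : ∃ N : ℕ, N = (δ * n + β).toNat := ⟨_, rfl⟩
  have hNi : (N : ℤ) = δ * n + β := by rw [hNN]; exact Int.toNat_of_nonneg hN.le
  have hv : ∀ x : ℤ, val δ γ β n x = (N : ℤ) - ((δ + γ : ℕ) : ℤ) * x := fun x => by rw [hNN]; exact val_eq δ γ β n hN x
  rw [← hNN]
  unfold reps WP Rough
  apply sum_congr
  · ext x
    rw [mem_filter, mem_filter, mem_Icc, mem_Icc, Pool.Agent.N625.PT.GG_ev, hv]
    constructor
    · rintro ⟨⟨h1, h2⟩, h3, h4, h5⟩
      refine ⟨⟨h1, ?_⟩, h3, h4, h5⟩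
      have h6 := h4.pos
      have h7 : (0 : ℤ) < (N : ℤ) - ((δ + γ : ℕ) : ℤ) * x := by omega
      have h8 : (x : ℤ) ≤ ((δ + γ : ℕ) : ℤ) * x := by
        have : (1 : ℤ) ≤ ((δ + γ : ℕ) : ℤ) := by exact_mod_cast (by omega : 1 ≤ δ + γ)
        nlinarith [Int.natCast_nonneg x]
      omega
    · rintro ⟨⟨h1, h2⟩, h3, h4, h5⟩
      refine ⟨⟨h1, ?_⟩, h3, h4, h5⟩
      have h6 := h4.pos
      have h7 : (0 : ℤ) < (N : ℤ) - ((δ + γ : ℕ) : ℤ) * x := by omega
      by_contra hcon
      have h8 : (n : ℤ) ≤ x := by omega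
      rw [hNi] at h7
      push_cast at h7
      have h9 : ((δ : ℤ) + γ) * n ≤ ((δ : ℤ) + γ) * x := mul_le_mul_of_nonneg_left h8 (by positivity)
      nlinarith
  · intro x _
    rw [Pool.Agent.N625.PT.GG_ev, hv]

lemma omega_eq (F : Fin g → ℤ[X]) (δ γ : ℕ) (β : ℤ) (n p : ℕ) (hN : 0 < δ * n + β) :
    omega F δ γ β n p = omegaN (PArg.eF F) (C ((δ + γ : ℕ) : ℤ) * X) (δ * n + β).toNat p := by
  unfold omega omegaN
  simp only [Pool.Agent.N625.PT.GG_ev, prod_eF, val_eq δ γ β n hN]

lemma expected_eq (F : Fin g → ℤ[X]) (δ γ : ℕ) (β : ℤ) (n z : ℕ) (hN : 0 < δ * n + β) :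
    expected F δ γ β n z = Pool.Agent.N625.PT.TPF F (δ + γ) (δ * n + β).toNat z := by
  unfold expected Pool.Agent.N625.PT.TPF
  have e : (Vz z)⁻¹ = ∏ p ∈ (Icc 1 z).filter Nat.Prime, (1 - 1 / (p : ℝ))⁻¹ := by
    rw [prod_inv_distrib]
    rfl
  rw [e, mul_assoc, ← prod_mul_distrib]
  congr 1
  apply prod_congr rfl
  intro p _
  rw [omega_eq F δ γ β n p hN]
  generalize (1 - 1 / (p : ℝ)) = t
  rw [div_eq_mul_inv, ← inv_pow]
  ring

lemma noFixed_of (F : Fin g → ℤ[X]) (δ γ : ℕ) (β : ℤ) (n : ℕ) (hN : 0 < δ * n + β) (h : NoFixedDivisor F δ γ β n) :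
    NoFixed (PArg.eF F) (C ((δ + γ : ℕ) : ℤ) * X) (δ * n + β).toNat := by
  intro p hp
  obtain ⟨x, hx⟩ := h p hp
  refine ⟨x, ?_⟩
  rw [prod_eF, Pool.Agent.N625.PT.GG_ev, ← val_eq δ γ β n hN]
  exact hx

open Classical in
/-- Let `D` and `ε > 0` be given. There is `K` with the following property. Let `F_1, ..., F_g` be any polynomials with
integer coefficients, not constant, with positive leading coefficients and degrees of sum at most `D`; let `b ≥ 2`, `Δ`,
`η > 0`, `M`, `r > 0`, `κ ≠ 0`, `A`, `B`, `J`, `W`, `U` be fixed, and let `k` be large, `|c| ≤ B b ^ k`, `z ^ K ≤ b ^ k` and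
`b ^ k ≤ z ^ A`. Let `v < b ^ k` be a random integer whose digits have the Gibbs distribution of an arbitrary interaction
which is summable at each position (with the bound `M`), with respect to an arbitrary Markov random field with flexible
digits on a graph of positions with degrees at most `Δ`. With a probability of at least `1 - 1 / k ^ U` the following holds
for ALL the `n ≥ 1` with `|n - (c + κ v)| ≤ k ^ W` and for ALL `1 ≤ δ ≤ k ^ J`, `γ ≤ k ^ J`, `|β| ≤ k ^ W` with
`0 < δ n + β`, `β ≤ γ n`: if `x F_1(x) ... F_g(x) f₂(x, n - x)` has no fixed prime divisor, where `f₂ = δ y - γ x + β`, then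
the weighted number of the `n = x + y`, `x, y ≥ 1`, such that `x` and `f₂(x, y)` are primes and the `F_i(x)` have no prime
factor `≤ z` differs from its expected value by at most the fraction `ε`. -/
theorem result (D : ℕ) (ε : ℝ) (hε : 0 < ε) : ∃ K : ℕ, 1 ≤ K ∧ ∀ (g : ℕ) (F : Fin g → ℤ[X]), (∀ i, 1 ≤ (F i).natDegree) →
    (∀ i, 0 < (F i).leadingCoeff) → ∑ i, (F i).natDegree ≤ D → ∀ (b Δ : ℕ), 2 ≤ b → ∀ η : ℝ, 0 < η →
    ∀ M r : ℝ, 0 < r → ∀ κ : ℤ, κ ≠ 0 → ∀ A B J W U : ℕ, ∃ k₀ : ℕ, ∀ k : ℕ, k₀ ≤ k →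
    ∀ (G : ℕ → ℕ → Prop) (q : ℕ → ℝ), RandomField b k Δ η G q →
    ∀ (φ : Finset ℕ → ℕ → ℝ) (N : Finset ℕ → ℝ), Interaction b k M r φ N →
    ∀ c : ℤ, |c| ≤ B * (b : ℤ) ^ k → ∀ z : ℕ, z ^ K ≤ b ^ k → b ^ k ≤ z ^ A →
      ∑ v ∈ range (b ^ k), (if ∀ n : ℕ, 1 ≤ n → |(n : ℤ) - (c + κ * v)| ≤ (k : ℤ) ^ W →
        ∀ δ γ : ℕ, 1 ≤ δ → δ ≤ k ^ J → γ ≤ k ^ J → ∀ β : ℤ, |β| ≤ (k : ℤ) ^ W → 0 < δ * n + β → β ≤ γ * n →
          NoFixedDivisor F δ γ β n →
          |reps F δ γ β n z - expected F δ γ β n z| ≤ ε * expected F δ γ β n z then 0 else gibbs b k q φ v) ≤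
      1 / (k : ℝ) ^ U := by
  obtain ⟨K, hK, hmain⟩ := Pool.Agent.N625.PT.det_PF (D + 1) ε hε
  refine ⟨2 * K, by omega, fun g F hF hFl hD b Δ hb η hη M r hr κ hκ A B J W U => ?_⟩
  have hdet := hmain g F hF hFl (by omega) (J + 2) (2 * A)
  have hGood := Pool.Agent.H85G.gt_good b Δ hb η (max M 0) r hη (le_max_right _ _) hr
  have hC := Pool.Agent.H85G.good_tcls hb hGood κ hκ
  obtain ⟨k₀, hmain2⟩ := Pool.Agent.N625.PT.t_gen hC B J W (U + (J + 1) + 0 + 1) _ _ hdet
  obtain ⟨z0, hz0⟩ : ∃ z0 : ℕ, z0 = 2 ^ (J + 2) := ⟨_, rfl⟩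
  refine ⟨k₀ + z0 + 2 * K + 4, fun k hk G q hq φ Nφ hφ c hc z hzK hzA => ?_⟩
  have hk2 : 2 ^ (J + 2) ≤ k := by rw [← hz0]; omega
  have hk4 : 4 ≤ k := by omega
  have hp := gt_conv hb hq hφ
  obtain ⟨p, hpp⟩ : ∃ p, p = gibbs b k q φ := ⟨_, rfl⟩
  rw [← hpp] at hp ⊢
  have hp0 : ∀ v, 0 ≤ p v := hGood.nonneg k p hp
  refine Pool.Agent.N625.PT.union (J + 1) 0 U k (by omega) (b ^ k) p hp0
    (fun m _ v => ¬ ∀ n : ℕ, 1 ≤ n → |(n : ℤ) - (c + κ * v)| ≤ (k : ℤ) ^ W →
        ∀ δ γ : ℕ, δ + γ = m → 1 ≤ δ → δ ≤ k ^ J → γ ≤ k ^ J → ∀ β : ℤ, |β| ≤ (k : ℤ) ^ W → 0 < δ * n + β → β ≤ γ * n →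
          NoFixedDivisor F δ γ β n →
          |reps F δ γ β n z - expected F δ γ β n z| ≤ ε * expected F δ γ β n z) _ ?_ ?_
  · intro v hv
    by_contra hcon
    apply hv
    intro n hn1 hn δ γ hδ1 hδ hγ β hβ h1 h2 hNF
    by_contra hbad
    apply hcon
    refine ⟨δ + γ, by omega, ?_, 0, by simp, ?_⟩
    · calc δ + γ ≤ k ^ J + k ^ J := add_le_add hδ hγ
        _ ≤ k ^ (J + 1) := by
          rw [pow_succ]
          have : 0 < k ^ J := by positivity
          nlinarith
    intro hall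
    exact hbad (hall n hn1 hn δ γ rfl hδ1 hδ hγ β hβ h1 h2 hNF)
  · intro m hm1 hm2 _ _
    have hAd : ∀ K' : ℕ, k ≤ K' → K' ≤ 2 * k → Pool.Agent.N625.PT.AdP (J + 2) K (2 * A) (b ^ K') (m, z) := by
      intro K' hK1 hK2
      refine ⟨hm1, ?_, ?_, ?_⟩
      · simp only
        have hbr : (2 : ℝ) ≤ b := by exact_mod_cast hb
        have hl : (k : ℝ) / 2 ≤ Real.log ((b ^ K' : ℕ) : ℝ) := by
          push_cast
          rw [Real.log_pow]
          have g1 : (1 : ℝ) / 2 ≤ Real.log b := by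
            have := Real.log_two_gt_d9
            have := Real.log_le_log (by norm_num) hbr
            linarith
          have g2 : (k : ℝ) ≤ K' := by exact_mod_cast hK1
          have g3 : (0 : ℝ) ≤ k := Nat.cast_nonneg _
          nlinarith
        have hk0 : (0 : ℝ) < k := by exact_mod_cast (by omega : 0 < k)
        calc (m : ℝ) ≤ (k : ℝ) ^ (J + 1) := by exact_mod_cast hm2
          _ ≤ ((k : ℝ) / 2) ^ (J + 2) := by
              rw [div_pow, le_div_iff₀ (by positivity), pow_succ (k : ℝ) (J + 1)]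
              apply mul_le_mul_of_nonneg_left _ (by positivity)
              exact_mod_cast hk2
          _ ≤ Real.log ((b ^ K' : ℕ) : ℝ) ^ (J + 2) := pow_le_pow_left₀ (by positivity) hl _
      · simp only
        exact hzK.trans (Nat.pow_le_pow_right (by omega) hK1)
      · simp only
        calc b ^ K' ≤ b ^ (2 * k) := Nat.pow_le_pow_right (by omega) hK2
          _ = (b ^ k) ^ 2 := by rw [← pow_mul]; congr 1; ring
          _ ≤ (z ^ A) ^ 2 := Nat.pow_le_pow_left hzA 2
          _ = z ^ (2 * A) := by rw [← pow_mul]; congr 1; ring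
    refine le_trans (le_of_eq ?_) (hmain2 k (by omega) p hp c hc (m, z) hAd
      (fun v => ∀ n : ℕ, 1 ≤ n → |(n : ℤ) - (c + κ * v)| ≤ (k : ℤ) ^ W →
        ∀ δ γ : ℕ, δ + γ = m → 1 ≤ δ → δ ≤ k ^ J → γ ≤ k ^ J → ∀ β : ℤ, |β| ≤ (k : ℤ) ^ W → 0 < δ * n + β → β ≤ γ * n →
          NoFixedDivisor F δ γ β n →
          |reps F δ γ β n z - expected F δ γ β n z| ≤ ε * expected F δ γ β n z) ?_)
    · apply sum_congr rfl
      intro v _
      by_cases hv : ∀ n : ℕ, 1 ≤ n → |(n : ℤ) - (c + κ * v)| ≤ (k : ℤ) ^ W →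
        ∀ δ γ : ℕ, δ + γ = m → 1 ≤ δ → δ ≤ k ^ J → γ ≤ k ^ J → ∀ β : ℤ, |β| ≤ (k : ℤ) ^ W → 0 < δ * n + β → β ≤ γ * n →
          NoFixedDivisor F δ γ β n →
          |reps F δ γ β n z - expected F δ γ β n z| ≤ ε * expected F δ γ β n z
      · rw [if_neg (not_not.2 hv), if_pos hv]
      · rw [if_pos hv, if_neg hv]
    intro v hv
    push Not at hv
    obtain ⟨n, hn1, hn, δ, γ, hδγ, hδ1, hδ, hγ, β, hβ, h1, h2, hNF, hbad⟩ := hv
    refine ⟨δ, hδ1, hδ, (n : ℤ) - (c + κ * v), hn, β, hβ, ?_, ?_⟩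
    · have e1 : (δ : ℤ) * (c + ((n : ℤ) - (c + κ * v)) + κ * v) + β = δ * n + β := by ring
      rw [e1]
      exact h1
    · have e1 : (δ : ℤ) * (c + ((n : ℤ) - (c + κ * v)) + κ * v) + β = δ * n + β := by ring
      rw [e1]
      intro hP
      have hNF' := noFixed_of F δ γ β n h1 hNF
      rw [hδγ] at hNF'
      have h5 := hP hNF'
      simp only at h5
      rw [reps_eq F δ γ β n z hδ1 h1 h2, expected_eq F δ γ β n z h1, hδγ] at hbad
      linarith

end Pool.Agent.Results.MP_0da313_nt.LongRangeGibbsLines
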